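import Mathlib
import Pool.Agent.H17.HCl

set_option autoImplicit false

namespace Pool.Agent.Results.MP_23a291_gt.Ex
open Set Filter Topology Pool.Agent.H17.HCl

def Covers {X : Type} [TopologicalSpace X] (𝒰 : ℕ → Set (Set X)) : Prop :=
  ∀ n, (∀ U ∈ 𝒰 n, IsOpen U) ∧ ⋃₀ 𝒰 n = univ

def Sel {X : Type} (𝒰 𝒱 : ℕ → Set (Set X)) : Prop := ∀ n, 𝒱 n ⊆ 𝒰 n ∧ (𝒱 n).Finite

def AS (X : Type) [TopologicalSpace X] : Prop :=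
  ∀ 𝒰 : ℕ → Set (Set X), Covers 𝒰 → ∃ 𝒱, Sel 𝒰 𝒱 ∧
    ∀ F : Set X, F.Finite → {n | F ⊆ closure (⋃₀ 𝒱 n)}.Infinite

def WS (X : Type) [TopologicalSpace X] : Prop :=
  ∀ 𝒰 : ℕ → Set (Set X), Covers 𝒰 → ∃ 𝒱, Sel 𝒰 𝒱 ∧
    ∀ ℱ : Set (Set X), ℱ.Finite → (∀ U ∈ ℱ, IsOpen U ∧ U.Nonempty) →
      {n | ∀ U ∈ ℱ, (U ∩ ⋃₀ 𝒱 n).Nonempty}.Infinite

def WSK (X : Type) [TopologicalSpace X] : Prop :=
  ∀ 𝒰 : ℕ → Set (Set X), Covers 𝒰 → ∃ (Y : Set X) (𝒱 : ℕ → Set (Set X)), Dense Y ∧ Sel 𝒰 𝒱 ∧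
    ∀ F ⊆ Y, F.Finite → {n | F ⊆ ⋃₀ 𝒱 n}.Infinite

theorem result : ∃ (X : Type) (_ : TopologicalSpace X), T2Space X ∧ AS X ∧ WS X ∧ ¬ WSK X := by
  refine ⟨X, inferInstance, inferInstance, fun 𝒰 h => ?_, fun 𝒰 h => ?_, fun h => ?_⟩
  · choose 𝒱 h1 h2 h3 using fun n => hcover (𝒰 n) (h n).1 (h n).2
    refine ⟨𝒱, fun n => ⟨h1 n, h2 n⟩, fun F _ => infinite_univ.mono fun n _ x _ => h3 n x⟩
  · choose 𝒱 h1 h2 h3 using fun n => hcover (𝒰 n) (h n).1 (h n).2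
    exact ⟨𝒱, fun n => ⟨h1 n, h2 n⟩, fun ℱ _ hℱ => infinite_univ.mono fun n _ U hU =>
      (h3 n).inter_open_nonempty U (hℱ U hU).1 (hℱ U hU).2⟩
  · obtain ⟨Y, 𝒱, h1, h2, h3⟩ := h (fun n => range fun x => insert x (A n)) fun n =>
      ⟨by rintro _ ⟨x, rfl⟩; exact open_sup (subset_insert _ _),
        eq_univ_of_forall fun x => ⟨_, ⟨x, rfl⟩, mem_insert _ _⟩⟩
    have h4 : ∀ n, ∀ V ∈ 𝒱 n, ∃ x, insert x (A n) = V := fun n => (h2 n).1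
    have : Nonempty X := ⟨((default, default) : C × C)⟩
    choose! x hx using h4
    refine not_dense ((countable_iUnion fun n => (h2 n).2.countable.image (x n)).mono
      fun y hy => ?_) h1
    obtain ⟨n, hn, hn'⟩ := (h3 {y} (singleton_subset_iff.2 hy) (finite_singleton y)).exists_gt
      (ψ (pr y).2)
    obtain ⟨V, hV, hyV⟩ := hn rfl
    rw [← hx n V hV] at hyV
    rcases hyV with h | h
    · exact mem_iUnion.2 ⟨n, V, hV, h.symm⟩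
    · exact absurd h (not_le.2 hn')

end Pool.Agent.Results.MP_23a291_gt.Ex
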